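import Mathlib
import Pool.Agent.H.MP_f9eabf_al.A

set_option autoImplicit false

namespace Pool.Agent.H.MP_0e199b_al

open Matrix Polynomial Pool.Agent.H.MP_25f4f2_al

def HO {n : ℕ} (A : Matrix (Fin n) (Fin n) ℂ) : Prop :=
  ∀ (k m : ℕ) (α : Fin (k + 1) → Fin n) (β : Fin (m + 1) → Fin n), StrictMono α → StrictMono β →
    Set.range β ⊆ Set.range α →
    ∃ a b : ℝ, IsLeast {x : ℝ | (x : ℂ) ∈ spectrum ℂ (A.submatrix α α)} a ∧
      IsLeast {x : ℝ | (x : ℂ) ∈ spectrum ℂ (A.submatrix β β)} b ∧ a ≤ b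

noncomputable def B : Matrix (Fin 4) (Fin 4) ℂ := A.submatrix ![0, 1, 2, 3] ![0, 1, 2, 3]

lemma e_mono : StrictMono (![0, 1, 2, 3] : Fin 4 → Fin 5) := by decide

lemma B_omega : HO B := fun k m α β ha hb h =>
  A_tau k m (![0, 1, 2, 3] ∘ α) (![0, 1, 2, 3] ∘ β) (e_mono.comp ha) (e_mono.comp hb) (by
    rw [Set.range_comp, Set.range_comp]
    exact Set.image_mono h)

lemma B_least : ∃ l : ℝ, IsLeast {x : ℝ | (x : ℂ) ∈ spectrum ℂ B} l ∧ 0 ≤ l := by
  obtain ⟨a, a1, a2, -⟩ := box4 ![0, 1, 2, 3] e_mono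
  rw [show w (Finset.univ.image ![0, 1, 2, 3]) = 7184339 by decide +kernel] at a2
  exact ⟨a, a1, le_trans (by norm_num) a2⟩

lemma log_deriv (q : ℂ[X]) (y : ℂ) (hy : y.re = y.im) (hq : ∀ z ∈ q.roots, z.im ≤ z.re)
    (h0 : q.eval y ≠ 0) :
    (q.derivative.eval y / q.eval y).re + (q.derivative.eval y / q.eval y).im ≤ 0 := by
  rw [(IsAlgClosed.splits q).eval_derivative_div_eval_of_ne_zero h0]
  generalize q.roots = s at hq
  induction s using Multiset.induction_on with
  | empty => simp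
  | cons z s ih =>
    rw [Multiset.map_cons, Multiset.sum_cons, Complex.add_re, Complex.add_im]
    have h1 := ih fun v hv => hq v (Multiset.mem_cons_of_mem hv)
    have h2 := hq z (Multiset.mem_cons_self _ _)
    have h3 : (1 / (y - z)).re + (1 / (y - z)).im ≤ 0 := by
      rw [one_div, Complex.inv_re, Complex.inv_im, ← add_div, Complex.sub_re, Complex.sub_im, hy]
      exact div_nonpos_of_nonpos_of_nonneg (by linarith) (Complex.normSq_nonneg _)
    linarith

lemma B_bad : ∃ z ∈ spectrum ℂ B, z.re < z.im := by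
  by_contra hc
  push Not at hc
  let q : ℂ[X] := C 7998980999991020000100000000000000000 - C 1119803713860209894000000100000 * X
    + C 899980390200020010000 * X ^ 2 - C 1030000000000 * X ^ 3 + X ^ 4
  have e0 : q.eval (700000000 + 700000000 * Complex.I) =
      ⟨-70244018702155905799900070000000000000, -608461817306127316000000070000000000000⟩ := by
    simp only [q, eval_sub, eval_add, eval_mul, eval_C, eval_pow, eval_X]
    apply Complex.ext <;> simp [pow_succ] <;> norm_num
  have e1 : q.derivative.eval (700000000 + 700000000 * Complex.I) =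
      ⟨137424832419818119999999900000, -1765483453719971986000000000000⟩ := by
    simp only [q, derivative_sub, derivative_add, derivative_mul, derivative_C, derivative_X_pow,
      derivative_X, eval_sub, eval_add, eval_mul, eval_C, eval_pow, eval_X, eval_zero, eval_one]
    apply Complex.ext <;> simp [pow_succ] <;> norm_num
  have := log_deriv q (700000000 + 700000000 * Complex.I) (by simp) (fun z hz => hc z (by
      have h1 := (mem_roots'.mp hz).2
      rw [B, spec_iff, det4]
      simp only [q, IsRoot, eval_sub, eval_add, eval_mul, eval_C, eval_pow, eval_X] at h1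
      simp [N, M]
      linear_combination h1)) (by rw [e0]; simp [Complex.ext_iff])
  rw [e0, e1, Complex.div_re, Complex.div_im, Complex.normSq_mk] at this
  norm_num at this

lemma im_le_re (z : ℂ) (h : |z.arg| ≤ Real.pi / 4) : z.im ≤ z.re := by
  obtain ⟨h1, h2⟩ := abs_le.mp h
  have hp := Real.pi_pos
  have key : Real.sin z.arg ≤ Real.cos z.arg := by
    rcases le_total z.arg 0 with h0 | h0
    · exact (Real.sin_nonpos_of_nonpos_of_neg_pi_le h0 (by linarith)).trans
        (Real.cos_nonneg_of_mem_Icc ⟨by linarith, by linarith⟩)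
    · rw [← Real.sin_pi_div_two_sub]
      exact Real.sin_le_sin_of_le_of_le_pi_div_two (by linarith) (by linarith) (by linarith)
  rw [← Complex.norm_mul_cos_arg z, ← Complex.norm_mul_sin_arg z]
  exact mul_le_mul_of_nonneg_left key (norm_nonneg _)

lemma arg_le (z : ℂ) (h0 : 0 < z.re) (h : 3 * z.im ^ 2 ≤ z.re ^ 2) :
    |z.arg| ≤ Real.pi / 6 := by
  have hz : z ≠ 0 := by
    rintro rfl
    simp at h0
  have hn : 0 < ‖z‖ := norm_pos_iff.mpr hz
  have h2 : ‖z‖ ^ 2 = z.re ^ 2 + z.im ^ 2 := by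
    rw [Complex.sq_norm, Complex.normSq_apply]
    ring
  have h3 : |2 * z.im| ≤ ‖z‖ := abs_le_of_sq_le_sq' (by nlinarith) hn.le |> abs_le.mpr
  obtain ⟨h4, h5⟩ := abs_le.mp h3
  have hp := Real.pi_pos
  have e : Real.arcsin (1 / 2) = Real.pi / 6 := by
    rw [← Real.sin_pi_div_six]
    exact Real.arcsin_sin (by linarith) (by linarith)
  rw [Complex.arg_of_re_nonneg h0.le, abs_le, ← e, ← Real.arcsin_neg]
  constructor <;> apply Real.arcsin_le_arcsin
  · rw [le_div_iff₀ hn]
    linarith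
  · rw [div_le_iff₀ hn]
    linarith

lemma real_case {n : ℕ} {A : Matrix (Fin n) (Fin n) ℂ} {l : ℝ}
    (hl : IsLeast {x : ℝ | (x : ℂ) ∈ spectrum ℂ A} l) (z : ℂ) (hz : z ∈ spectrum ℂ A)
    (h : z.im = 0) : (z - l).arg = 0 := by
  have e : z = (z.re : ℂ) := Complex.ext rfl (by simpa using h)
  have := hl.2 (show z.re ∈ {x : ℝ | (x : ℂ) ∈ spectrum ℂ A} by
    rw [Set.mem_ofPred_eq, ← e]
    exact hz)
  rw [e, ← Complex.ofReal_sub]
  exact Complex.arg_ofReal_of_nonneg (by linarith)

lemma one {n : ℕ} {A : Matrix (Fin n) (Fin n) ℂ} {i : Fin n} {b : ℝ}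
    (hb : (b : ℂ) ∈ spectrum ℂ (A.submatrix ![i] ![i])) : A i i = b := by
  have := Pool.Agent.H.MP_f9eabf_al.spec_iff _ _ hb
  rw [Matrix.det_fin_one] at this
  simp at this
  linear_combination -this

lemma diag {n : ℕ} {A : Matrix (Fin (n + 1)) (Fin (n + 1)) ℂ} (h : HO A) {l : ℝ}
    (hl : IsLeast {x : ℝ | (x : ℂ) ∈ spectrum ℂ A} l) (i : Fin (n + 1)) :
    ∃ e : ℝ, 0 ≤ e ∧ A i i = l + e := by
  obtain ⟨a, b, ha, hb, hab⟩ := h n 0 id ![i] strictMono_id (Subsingleton.strictMono (α := Fin 1) _) (by simp)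
  obtain rfl : a = l := ha.unique hl
  exact ⟨b - a, by linarith, by rw [one hb.1]; push_cast; ring⟩

lemma pair {n : ℕ} {A : Matrix (Fin n) (Fin n) ℂ} (h : HO A) (i j : Fin n)
    (hij : StrictMono ![i, j]) : ∃ c : ℝ, 0 ≤ c ∧ A i j * A j i = c := by
  obtain ⟨a, b, ha, hb, hab⟩ := h 1 0 ![i, j] ![i] hij (Subsingleton.strictMono (α := Fin 1) _) (by simp)
  obtain ⟨a', b', ha', hb', hab'⟩ := h 1 0 ![i, j] ![j] hij (Subsingleton.strictMono (α := Fin 1) _) (by simp)
  obtain rfl : a = a' := ha.unique ha'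
  have := Pool.Agent.H.MP_f9eabf_al.spec_iff _ _ ha.1
  rw [Matrix.det_fin_two] at this
  simp [one hb.1, one hb'.1] at this
  refine ⟨(b - a) * (b' - a), mul_nonneg (by linarith) (by linarith), ?_⟩
  push_cast
  linear_combination -this

lemma varga {n : ℕ} (h1 : 1 ≤ n) (h3 : n ≤ 3) {A : Matrix (Fin n) (Fin n) ℂ} (h : HO A) {l : ℝ}
    (hl : IsLeast {x : ℝ | (x : ℂ) ∈ spectrum ℂ A} l) (z : ℂ) (hz : z ∈ spectrum ℂ A)
    (hne : z ≠ l) : |(z - l).arg| ≤ Real.pi / 2 - Real.pi / n := by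
  have c1 := Pool.Agent.H.MP_f9eabf_al.spec_iff _ _ hz
  have c2 := Pool.Agent.H.MP_f9eabf_al.spec_iff _ _ hl.1
  have hne' : z - l ≠ 0 := sub_ne_zero.mpr hne
  have hp := Real.pi_pos
  interval_cases n
  · rw [Matrix.det_fin_one] at c1 c2
    simp at c1 c2
    exact absurd (by linear_combination c1 - c2) hne
  · obtain ⟨e0, -, f0⟩ := diag h hl 0
    obtain ⟨e1, -, f1⟩ := diag h hl 1
    rw [Matrix.det_fin_two] at c1 c2
    simp [f0, f1] at c1 c2
    have : z = ((l + e0 + e1 : ℝ) : ℂ) := by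
      apply mul_left_cancel₀ hne'
      push_cast
      linear_combination c1 - c2
    rw [real_case hl z hz (by rw [this, Complex.ofReal_im])]
    norm_num
  · obtain ⟨e0, g0, f0⟩ := diag h hl 0
    obtain ⟨e1, g1, f1⟩ := diag h hl 1
    obtain ⟨e2, g2, f2⟩ := diag h hl 2
    obtain ⟨p, p0, p1⟩ := pair h 0 1 (by decide)
    obtain ⟨q, q0, q1⟩ := pair h 0 2 (by decide)
    obtain ⟨r, r0, r1⟩ := pair h 1 2 (by decide)
    rw [Matrix.det_fin_three] at c1 c2
    simp [f0, f1, f2] at c1 c2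
    have k : (z - l) ^ 2 - ((e0 + e1 + e2 : ℝ) : ℂ) * (z - l) +
        ((e0 * e1 + e0 * e2 + e1 * e2 - p - q - r : ℝ) : ℂ) = 0 := by
      apply mul_left_cancel₀ hne'
      push_cast
      linear_combination c1 - c2 + (z - l) * (p1 + q1 + r1)
    have e : Real.pi / 2 - Real.pi / (3 : ℕ) = Real.pi / 6 := by
      push_cast
      ring
    rw [e]
    by_cases hy : z.im = 0
    · rw [real_case hl z hz hy, abs_zero]
      positivity
    · have hy' : (z - l).im ≠ 0 := by simpa using hy
      generalize z - l = v at k hy'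
      have k1 := congrArg Complex.re k
      have k2 := congrArg Complex.im k
      simp only [pow_two, Complex.add_re, Complex.sub_re, Complex.mul_re, Complex.ofReal_re,
        Complex.ofReal_im, Complex.add_im, Complex.sub_im, Complex.mul_im, Complex.zero_re,
        Complex.zero_im] at k1 k2
      have k3 : e0 + e1 + e2 = 2 * v.re := by
        apply mul_left_cancel₀ hy'
        linarith
      have k4 : 3 * v.im ^ 2 ≤ v.re ^ 2 := by
        have : 3 * (e0 * e1 + e0 * e2 + e1 * e2) ≤ (e0 + e1 + e2) ^ 2 := by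
          nlinarith [sq_nonneg (e0 - e1), sq_nonneg (e0 - e2), sq_nonneg (e1 - e2)]
        rw [k3] at k1 this
        nlinarith
      refine arg_le v ?_ k4
      have : 0 < v.im ^ 2 := by positivity
      rcases (show 0 ≤ v.re by linarith).lt_or_eq with h0 | h0
      · exact h0
      · rw [← h0] at k4
        linarith

end Pool.Agent.H.MP_0e199b_al
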